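import Pool.Agent.H484.AL.Stm

/-! QM: second moment of one cell. -/

namespace Pool.Agent.H484.AL

open Finset
open scoped Classical

theorem t_QM (hNP : S_NP) (hPARC : S_PARC) (hONE : S_ONE) (hLK : S_LK) : S_QM := by
  intro e B g M a0 J α hR t j ht hj
  have he : 2 ≤ e := hR.he
  have hB : (64 : ℝ) ≤ (B : ℝ) := by exact_mod_cast hR.hB
  have hB1 : (1 : ℝ) ≤ (B : ℝ) := by linarith
  have hBJ : (1 : ℝ) ≤ (B : ℝ) ^ J := one_le_pow₀ hB1
  have hBt : (1 : ℝ) ≤ (B : ℝ) ^ t := one_le_pow₀ hB1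
  have hδ : 1 / (B : ℝ) ^ J ≤ 1 := by
    rw [div_le_one (by linarith)]
    exact hBJ
  have hδ0 : 0 ≤ 1 / (B : ℝ) ^ J := by positivity
  have hκ0 : (0 : ℝ) ≤ (kap e (g * M) B t j : ℝ) := Nat.cast_nonneg _
  have hM0 : (0 : ℝ) ≤ (M : ℝ) := Nat.cast_nonneg _
  have hLk : (B : ℝ) ^ t * (((Lset e g B α j).card : ℝ) * (kap e (g * M) B t j : ℝ))
      ≤ 2 ^ e * (M : ℝ) := by
    have h := (hLK e B g M a0 J α hR t j ht hj).1
    exact_mod_cast h
  have hS2 : (B : ℝ) ^ t * ∑ b : Fin e → Fin M,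
      ((((Lset e g B α j ×ˢ Lset e g B α j).filter (fun z =>
      z.1 ≠ z.2 ∧ Par e z.1 z.2 ∧ EvC e g M a0 B α (fun i => (b i : ℕ)) t j z.1 ∧
      EvC e g M a0 B α (fun i => (b i : ℕ)) t j z.2)).card : ℕ) : ℝ)
    ≤ 4 * 3 ^ (e + 1) * (M : ℝ) ^ e := by
    have h := hPARC e B g M a0 J α hR t j ht hj
    exact_mod_cast h
  have hN : ∀ b : Fin e → ℕ, (NN e g M a0 B α b t j : ℝ)
      = ∑ l ∈ Lset e g B α j, if EvC e g M a0 B α b t j l then (1 : ℝ) else 0 := by
    intro b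
    rw [Finset.sum_boole]
    rfl
  have hpt : ∀ b : Fin e → ℕ, (NN e g M a0 B α b t j : ℝ) ^ 2 ≤ (NN e g M a0 B α b t j : ℝ)
      + ((((Lset e g B α j ×ˢ Lset e g B α j).filter (fun z =>
      z.1 ≠ z.2 ∧ Par e z.1 z.2 ∧ EvC e g M a0 B α b t j z.1 ∧
      EvC e g M a0 B α b t j z.2)).card : ℕ) : ℝ)
      + ∑ z ∈ (Lset e g B α j ×ˢ Lset e g B α j).filter (fun z => ¬ Par e z.1 z.2),
        (if EvC e g M a0 B α b t j z.1 ∧ EvC e g M a0 B α b t j z.2 then (1 : ℝ) else 0) := by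
    intro b
    have h1 : (NN e g M a0 B α b t j) ^ 2
        = (((Lset e g B α j).filter (fun l => EvC e g M a0 B α b t j l)) ×ˢ
          ((Lset e g B α j).filter (fun l => EvC e g M a0 B α b t j l))).card := by
      rw [Finset.card_product, pow_two]
      rfl
    have h2 : (((Lset e g B α j).filter (fun l => EvC e g M a0 B α b t j l)) ×ˢ
          ((Lset e g B α j).filter (fun l => EvC e g M a0 B α b t j l)))
        ⊆ (((Lset e g B α j).filter (fun l => EvC e g M a0 B α b t j l)).diag ∪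
          (Lset e g B α j ×ˢ Lset e g B α j).filter (fun z =>
            z.1 ≠ z.2 ∧ Par e z.1 z.2 ∧ EvC e g M a0 B α b t j z.1 ∧
            EvC e g M a0 B α b t j z.2)) ∪
          ((Lset e g B α j ×ˢ Lset e g B α j).filter (fun z => ¬ Par e z.1 z.2)).filter
            (fun z => EvC e g M a0 B α b t j z.1 ∧ EvC e g M a0 B α b t j z.2) := by
      intro z hz
      rw [Finset.mem_product, Finset.mem_filter, Finset.mem_filter] at hz
      obtain ⟨⟨hz1, hz2⟩, hz3, hz4⟩ := hz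
      rw [Finset.mem_union, Finset.mem_union, Finset.mem_diag, Finset.mem_filter,
        Finset.mem_filter, Finset.mem_filter, Finset.mem_filter, Finset.mem_product]
      by_cases hP : Par e z.1 z.2
      · by_cases hE : z.1 = z.2
        · exact Or.inl (Or.inl ⟨⟨hz1, hz2⟩, hE⟩)
        · exact Or.inl (Or.inr ⟨⟨hz1, hz3⟩, hE, hP, hz2, hz4⟩)
      · exact Or.inr ⟨⟨⟨hz1, hz3⟩, hP⟩, hz2, hz4⟩
    have h3 := Finset.card_le_card h2
    have h4 := h3.trans ((Finset.card_union_le _ _).trans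
      (Nat.add_le_add_right (Finset.card_union_le _ _) _))
    rw [← h1, Finset.diag_card] at h4
    have h5 : (((NN e g M a0 B α b t j) ^ 2 : ℕ) : ℝ) ≤
        (((((Lset e g B α j).filter (fun l => EvC e g M a0 B α b t j l)).card +
          ((Lset e g B α j ×ˢ Lset e g B α j).filter (fun z =>
            z.1 ≠ z.2 ∧ Par e z.1 z.2 ∧ EvC e g M a0 B α b t j z.1 ∧
            EvC e g M a0 B α b t j z.2)).card) +
          (((Lset e g B α j ×ˢ Lset e g B α j).filter (fun z => ¬ Par e z.1 z.2)).filter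
            (fun z => EvC e g M a0 B α b t j z.1 ∧ EvC e g M a0 B α b t j z.2)).card : ℕ) : ℝ) :=
      Nat.cast_le.2 h4
    rw [Nat.cast_pow, Nat.cast_add, Nat.cast_add] at h5
    rw [Finset.sum_boole]
    exact h5
  have hS1 : ∑ b : Fin e → Fin M, (NN e g M a0 B α (fun i => (b i : ℕ)) t j : ℝ)
      ≤ ((Lset e g B α j).card : ℝ) *
        (2 * (kap e (g * M) B t j : ℝ) * (M : ℝ) ^ (e - 1)) := by
    have hh : ∑ b : Fin e → Fin M, (NN e g M a0 B α (fun i => (b i : ℕ)) t j : ℝ)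
        = ∑ l ∈ Lset e g B α j, ∑ b : Fin e → Fin M,
          (if EvC e g M a0 B α (fun i => (b i : ℕ)) t j l then (1 : ℝ) else 0) := by
      rw [Finset.sum_comm]
      exact Finset.sum_congr rfl fun b _ => hN _
    rw [hh]
    have hle : ∀ l ∈ Lset e g B α j, ∑ b : Fin e → Fin M,
          (if EvC e g M a0 B α (fun i => (b i : ℕ)) t j l then (1 : ℝ) else 0)
        ≤ 2 * (kap e (g * M) B t j : ℝ) * (M : ℝ) ^ (e - 1) := by
      intro l hl
      rw [Finset.sum_boole]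
      have h1 := (hONE e B g M a0 J α hR t j ht hj l hl).1
      have h2 : (1 + 1 / (B : ℝ) ^ J) * (kap e (g * M) B t j : ℝ) * (M : ℝ) ^ (e - 1)
          ≤ 2 * (kap e (g * M) B t j : ℝ) * (M : ℝ) ^ (e - 1) := by
        have h3 : (0 : ℝ) ≤ (M : ℝ) ^ (e - 1) := by positivity
        have h4 : (1 + 1 / (B : ℝ) ^ J) * (kap e (g * M) B t j : ℝ)
            ≤ 2 * (kap e (g * M) B t j : ℝ) := by nlinarith
        exact mul_le_mul_of_nonneg_right h4 h3
      exact h1.trans h2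
    refine (Finset.sum_le_sum hle).trans ?_
    rw [Finset.sum_const, nsmul_eq_mul]
  have hS3 : ∑ b : Fin e → Fin M,
        ∑ z ∈ (Lset e g B α j ×ˢ Lset e g B α j).filter (fun z => ¬ Par e z.1 z.2),
        (if EvC e g M a0 B α (fun i => (b i : ℕ)) t j z.1 ∧
          EvC e g M a0 B α (fun i => (b i : ℕ)) t j z.2 then (1 : ℝ) else 0)
      ≤ (((Lset e g B α j).card : ℝ) * ((Lset e g B α j).card : ℝ)) *
        (4 * ((kap e (g * M) B t j : ℝ) * (kap e (g * M) B t j : ℝ)) * (M : ℝ) ^ (e - 2)) := by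
    rw [Finset.sum_comm]
    have hle : ∀ z ∈ (Lset e g B α j ×ˢ Lset e g B α j).filter (fun z => ¬ Par e z.1 z.2),
        ∑ b : Fin e → Fin M, (if EvC e g M a0 B α (fun i => (b i : ℕ)) t j z.1 ∧
          EvC e g M a0 B α (fun i => (b i : ℕ)) t j z.2 then (1 : ℝ) else 0)
        ≤ 4 * ((kap e (g * M) B t j : ℝ) * (kap e (g * M) B t j : ℝ)) * (M : ℝ) ^ (e - 2) := by
      intro z hz
      rw [Finset.mem_filter, Finset.mem_product] at hz
      rw [Finset.sum_boole]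
      have h1 := hNP e B g M a0 J α hR t t j j ht ht hj hj z.1 hz.1.1 z.2 hz.1.2 hz.2
      refine h1.trans ?_
      have h3 : (0 : ℝ) ≤ (M : ℝ) ^ (e - 2) := by positivity
      have h5 : (0 : ℝ) ≤ (kap e (g * M) B t j : ℝ) * (kap e (g * M) B t j : ℝ) := by positivity
      have h6 : (1 + 1 / (B : ℝ) ^ J) ^ 2 ≤ 4 := by nlinarith
      exact mul_le_mul_of_nonneg_right (mul_le_mul_of_nonneg_right h6 h5) h3
    refine (Finset.sum_le_sum hle).trans ?_
    rw [Finset.sum_const, nsmul_eq_mul]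
    refine mul_le_mul_of_nonneg_right ?_ (by positivity)
    have h7 : ((Lset e g B α j ×ˢ Lset e g B α j).filter (fun z => ¬ Par e z.1 z.2)).card
        ≤ (Lset e g B α j).card * (Lset e g B α j).card := by
      rw [← Finset.card_product]
      exact Finset.card_filter_le _ _
    exact_mod_cast h7
  have hpow1 : (M : ℝ) ^ e = (M : ℝ) * (M : ℝ) ^ (e - 1) := by
    rw [← pow_succ']
    exact congrArg _ (by omega)
  have hpow2 : (M : ℝ) ^ e = (M : ℝ) ^ 2 * (M : ℝ) ^ (e - 2) := by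
    rw [← pow_add]
    exact congrArg _ (by omega)
  have hT1 : (B : ℝ) ^ t * ∑ b : Fin e → Fin M, (NN e g M a0 B α (fun i => (b i : ℕ)) t j : ℝ)
      ≤ 2 * 2 ^ e * (M : ℝ) ^ e := by
    calc (B : ℝ) ^ t * ∑ b : Fin e → Fin M, (NN e g M a0 B α (fun i => (b i : ℕ)) t j : ℝ)
        ≤ (B : ℝ) ^ t * (((Lset e g B α j).card : ℝ) *
          (2 * (kap e (g * M) B t j : ℝ) * (M : ℝ) ^ (e - 1))) :=
          mul_le_mul_of_nonneg_left hS1 (by positivity)
      _ = 2 * ((B : ℝ) ^ t * (((Lset e g B α j).card : ℝ) * (kap e (g * M) B t j : ℝ)))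
          * (M : ℝ) ^ (e - 1) := by ring
      _ ≤ 2 * (2 ^ e * (M : ℝ)) * (M : ℝ) ^ (e - 1) := by
          refine mul_le_mul_of_nonneg_right ?_ (by positivity)
          linarith
      _ = 2 * 2 ^ e * (M : ℝ) ^ e := by rw [hpow1]; ring
  have hT3 : (B : ℝ) ^ t * ∑ b : Fin e → Fin M,
        ∑ z ∈ (Lset e g B α j ×ˢ Lset e g B α j).filter (fun z => ¬ Par e z.1 z.2),
        (if EvC e g M a0 B α (fun i => (b i : ℕ)) t j z.1 ∧
          EvC e g M a0 B α (fun i => (b i : ℕ)) t j z.2 then (1 : ℝ) else 0)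
      ≤ 4 * 4 ^ e * (M : ℝ) ^ e := by
    have hX0 : (0 : ℝ) ≤ ((Lset e g B α j).card : ℝ) * (kap e (g * M) B t j : ℝ) := by
      positivity
    calc _ ≤ (B : ℝ) ^ t * ((((Lset e g B α j).card : ℝ) * ((Lset e g B α j).card : ℝ)) *
        (4 * ((kap e (g * M) B t j : ℝ) * (kap e (g * M) B t j : ℝ)) * (M : ℝ) ^ (e - 2))) :=
          mul_le_mul_of_nonneg_left hS3 (by positivity)
      _ = 4 * ((B : ℝ) ^ t * (((Lset e g B α j).card : ℝ) * (kap e (g * M) B t j : ℝ)) ^ 2)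
          * (M : ℝ) ^ (e - 2) := by ring
      _ ≤ 4 * (((B : ℝ) ^ t * (((Lset e g B α j).card : ℝ) * (kap e (g * M) B t j : ℝ))) ^ 2)
          * (M : ℝ) ^ (e - 2) := by
          refine mul_le_mul_of_nonneg_right ?_ (by positivity)
          refine mul_le_mul_of_nonneg_left ?_ (by norm_num)
          rw [mul_pow ((B : ℝ) ^ t)]
          refine mul_le_mul_of_nonneg_right ?_ (by positivity)
          nlinarith
      _ ≤ 4 * ((2 ^ e * (M : ℝ)) ^ 2) * (M : ℝ) ^ (e - 2) := by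
          refine mul_le_mul_of_nonneg_right ?_ (by positivity)
          refine mul_le_mul_of_nonneg_left ?_ (by norm_num)
          exact pow_le_pow_left₀ (by positivity) hLk 2
      _ = 4 * 4 ^ e * (M : ℝ) ^ e := by
          rw [hpow2, mul_pow, ← pow_mul, mul_comm e 2, pow_mul]
          norm_num
          ring
  have hsum : ∑ b : Fin e → Fin M, (NN e g M a0 B α (fun i => (b i : ℕ)) t j : ℝ) ^ 2
      ≤ ∑ b : Fin e → Fin M, (NN e g M a0 B α (fun i => (b i : ℕ)) t j : ℝ)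
      + ∑ b : Fin e → Fin M,
      ((((Lset e g B α j ×ˢ Lset e g B α j).filter (fun z =>
      z.1 ≠ z.2 ∧ Par e z.1 z.2 ∧ EvC e g M a0 B α (fun i => (b i : ℕ)) t j z.1 ∧
      EvC e g M a0 B α (fun i => (b i : ℕ)) t j z.2)).card : ℕ) : ℝ)
      + ∑ b : Fin e → Fin M,
        ∑ z ∈ (Lset e g B α j ×ˢ Lset e g B α j).filter (fun z => ¬ Par e z.1 z.2),
        (if EvC e g M a0 B α (fun i => (b i : ℕ)) t j z.1 ∧
          EvC e g M a0 B α (fun i => (b i : ℕ)) t j z.2 then (1 : ℝ) else 0) := by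
    rw [← Finset.sum_add_distrib, ← Finset.sum_add_distrib]
    exact Finset.sum_le_sum fun b _ => hpt _
  have h24 : (2 : ℝ) ^ e ≤ 4 ^ e := pow_le_pow_left₀ (by norm_num) (by norm_num) e
  have h34 : (3 : ℝ) ^ e ≤ 4 ^ e := pow_le_pow_left₀ (by norm_num) (by norm_num) e
  have hMe : (0 : ℝ) ≤ (M : ℝ) ^ e := by positivity
  have hfin := mul_le_mul_of_nonneg_left hsum (show (0 : ℝ) ≤ (B : ℝ) ^ t by positivity)
  rw [mul_add, mul_add] at hfin
  have hA : 2 * 2 ^ e * (M : ℝ) ^ e ≤ 2 * 4 ^ e * (M : ℝ) ^ e :=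
    mul_le_mul_of_nonneg_right (by linarith) hMe
  have hB' : 4 * 3 ^ (e + 1) * (M : ℝ) ^ e ≤ 12 * 4 ^ e * (M : ℝ) ^ e := by
    refine mul_le_mul_of_nonneg_right ?_ hMe
    rw [pow_succ]
    linarith
  linarith

end Pool.Agent.H484.AL
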